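import Pool.Agent.Lib.MP_f85c9e_gt.Defs

/-!
# Selectively highly divergent spaces and the Pixley-Roy hyperspace

Basic facts and the main diagonal argument.
-/

open Filter Topology Set

namespace Pool.Agent.Lib.MP_f85c9e_gt

variable {X : Type*} [TopologicalSpace X]

theorem PixleyRoy.isOpen_def {𝒰 : Set (PixleyRoy X)} :
    IsOpen 𝒰 ↔ ∀ F ∈ 𝒰, ∃ V : Set X, IsOpen V ∧ (F.carrier : Set X) ⊆ V ∧
      PixleyRoy.basic F V ⊆ 𝒰 :=
  Iff.rfl

theorem PixleyRoy.isOpen_basic (F : PixleyRoy X) {V : Set X} (hV : IsOpen V) :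
    IsOpen (PixleyRoy.basic F V) := by
  rw [PixleyRoy.isOpen_def]
  intro H hH
  exact ⟨V, hV, hH.2, fun K hK => ⟨hH.1.trans hK.1, hK.2⟩⟩

/-- Sanity check: the sets `[F, V]`, `V ⊇ F` open, form a local base at `F`. -/
theorem PixleyRoy.hasBasis_nhds (F : PixleyRoy X) :
    (𝓝 F).HasBasis (fun V : Set X => IsOpen V ∧ (F.carrier : Set X) ⊆ V)
      (fun V => PixleyRoy.basic F V) := by
  rw [hasBasis_iff]
  intro t
  constructor
  · intro ht
    obtain ⟨u, hut, hu, hFu⟩ := mem_nhds_iff.1 ht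
    obtain ⟨V, hV, hFV, hVu⟩ := PixleyRoy.isOpen_def.1 hu F hFu
    exact ⟨V, ⟨hV, hFV⟩, hVu.trans hut⟩
  · rintro ⟨V, ⟨hV, hFV⟩, hVt⟩
    exact mem_nhds_iff.2 ⟨_, hVt, PixleyRoy.isOpen_basic F hV, ⟨Finset.Subset.refl _, hFV⟩⟩

theorem PixleyRoy.tendsto_iff {x : ℕ → PixleyRoy X} {L : PixleyRoy X} :
    Tendsto x atTop (𝓝 L) ↔
      ∀ V : Set X, IsOpen V → (L.carrier : Set X) ⊆ V →
        ∀ᶠ n in atTop, L.carrier ⊆ (x n).carrier ∧ ((x n).carrier : Set X) ⊆ V := by
  rw [(PixleyRoy.hasBasis_nhds L).tendsto_right_iff]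
  constructor
  · intro h V hV hLV
    exact h V ⟨hV, hLV⟩
  · intro h V hV
    exact h V hV.1 hV.2

/-- The easy direction: if some nonempty finite set has a countable neighbourhood base then the
Pixley-Roy hyperspace is not SHD. -/
theorem not_isSHD_of_isCountablyGenerated (A : Finset X) (hA : A.Nonempty)
    (h : (𝓝ˢ (A : Set X)).IsCountablyGenerated) : ¬ IsSHD (PixleyRoy X) := by
  intro hS
  obtain ⟨V, hV⟩ := (𝓝ˢ (A : Set X)).exists_antitone_basis
  have hVA : ∀ n, (A : Set X) ⊆ interior (V n) := fun n =>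
    subset_interior_iff_mem_nhdsSet.2 (hV.1.mem_of_mem trivial)
  obtain ⟨x, hx, hφ⟩ := hS (fun n => PixleyRoy.basic ⟨A, hA⟩ (interior (V n)))
    (fun n => PixleyRoy.isOpen_basic _ isOpen_interior)
    (fun n => ⟨⟨A, hA⟩, Finset.Subset.refl _, hVA n⟩)
  refine hφ id strictMono_id ⟨A, hA⟩ ?_
  rw [PixleyRoy.tendsto_iff]
  intro W hW hAW
  obtain ⟨n, -, hn⟩ := hV.1.mem_iff.1 (hW.mem_nhdsSet.2 hAW)
  filter_upwards [eventually_ge_atTop n] with m hm
  exact ⟨(hx m).1, (hx m).2.trans (interior_subset.trans ((hV.2 hm).trans hn))⟩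

/-- The diagonal argument: if no nonempty finite set has a countable neighbourhood base then the
Pixley-Roy hyperspace is SHD. -/
theorem isSHD_of_not_isCountablyGenerated
    (h : ∀ A : Finset X, A.Nonempty → ¬ (𝓝ˢ (A : Set X)).IsCountablyGenerated) :
    IsSHD (PixleyRoy X) := by
  classical
  intro U hU hne
  choose F hF using hne
  have h1 : ∀ n, ∃ V : Set X, IsOpen V ∧ ((F n).carrier : Set X) ⊆ V ∧
      PixleyRoy.basic (F n) V ⊆ U n :=
    fun n => PixleyRoy.isOpen_def.1 (hU n) (F n) (hF n)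
  choose V hVo hFV hVU using h1
  -- the escaping neighbourhoods
  have h2 : ∀ A : Finset X, ∃ W : Set X, A.Nonempty →
      IsOpen W ∧ (A : Set X) ⊆ W ∧ ∀ n, (A : Set X) ⊆ V n → ¬ V n ⊆ W := by
    intro A
    by_contra hcon
    push Not at hcon
    have hA : A.Nonempty := (hcon univ).1
    apply h A hA
    have hbasis : (𝓝ˢ (A : Set X)).HasBasis (fun n => (A : Set X) ⊆ V n) V := by
      rw [hasBasis_iff]
      intro t
      constructor
      · intro ht
        obtain ⟨n, hn1, hn2⟩ := (hcon (interior t)).2 isOpen_interior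
          (subset_interior_iff_mem_nhdsSet.2 ht)
        exact ⟨n, hn1, hn2.trans interior_subset⟩
      · rintro ⟨n, hn1, hn2⟩
        exact mem_of_superset ((hVo n).mem_nhdsSet.2 hn1) hn2
    exact HasCountableBasis.isCountablyGenerated ⟨hbasis, Set.to_countable _⟩
  choose W hW using h2
  -- the escaping points
  have h3 : ∀ (n : ℕ) (A : Finset X), ∃ p : X, p ∈ V n ∧
      (A.Nonempty → (A : Set X) ⊆ V n → p ∉ W A) := by
    intro n A
    by_cases hA : A.Nonempty ∧ (A : Set X) ⊆ V n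
    · obtain ⟨p, hp1, hp2⟩ := not_subset.1 ((hW A hA.1).2.2 n hA.2)
      exact ⟨p, hp1, fun _ _ => hp2⟩
    · obtain ⟨q, hq⟩ := (F n).nonempty
      exact ⟨q, hFV n hq, fun h1 h2 => absurd ⟨h1, h2⟩ hA⟩
  choose p hpV hpW using h3
  -- the recursively chosen finite sets
  let g : ℕ → Finset X → Finset X := fun n S => (F n).carrier ∪ S.powerset.image (p n)
  let S : ℕ → Finset X := fun n => Nat.rec ∅ (fun n T => T ∪ g n T) n
  have hSsucc : ∀ n, S (n + 1) = S n ∪ g n (S n) := fun n => rfl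
  have hSmono : Monotone S := monotone_nat_of_le_succ fun n => by
    rw [hSsucc]; exact Finset.subset_union_left
  have hgne : ∀ n, (g n (S n)).Nonempty := fun n => (F n).nonempty.mono Finset.subset_union_left
  refine ⟨fun n => ⟨g n (S n), hgne n⟩, ?_, ?_⟩
  · intro n
    apply hVU n
    refine ⟨Finset.subset_union_left, ?_⟩
    intro q hq
    simp only [g, Finset.coe_union, Finset.coe_image, mem_union, mem_image, Finset.mem_coe] at hq
    rcases hq with hq | ⟨B, -, rfl⟩
    · exact hFV n hq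
    · exact hpV n B
  · intro φ hφ L hL
    rw [PixleyRoy.tendsto_iff] at hL
    have hWL := hW L.carrier L.nonempty
    obtain ⟨k, hk⟩ := eventually_atTop.1 (hL (W L.carrier) hWL.1 hWL.2.1)
    have hk0 := hk k le_rfl
    have hk1 := hk (k + 1) (Nat.le_succ k)
    have hlt : φ k < φ (k + 1) := hφ (Nat.lt_succ_self k)
    have hLS : L.carrier ⊆ S (φ (k + 1)) := by
      refine hk0.1.trans ?_
      have : g (φ k) (S (φ k)) ⊆ S (φ k + 1) := by
        rw [hSsucc]; exact Finset.subset_union_right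
      exact this.trans (hSmono hlt)
    have hLV : (L.carrier : Set X) ⊆ V (φ (k + 1)) := by
      intro q hq
      have hq' := hk1.1 hq
      simp only [g, Finset.mem_union, Finset.mem_image] at hq'
      rcases hq' with hq' | ⟨B, -, rfl⟩
      · exact hFV _ hq'
      · exact hpV _ B
    have hmem : p (φ (k + 1)) L.carrier ∈ g (φ (k + 1)) (S (φ (k + 1))) :=
      Finset.mem_union_right _
        (Finset.mem_image.2 ⟨L.carrier, Finset.mem_powerset.2 hLS, rfl⟩)
    exact hpW (φ (k + 1)) L.carrier L.nonempty hLV (hk1.2 hmem)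

end Pool.Agent.Lib.MP_f85c9e_gt
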