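import Pool.Agent.Lib.MP_f85c9e_gt.Basic

/-!
# SHD passes from a space to its Pixley-Roy hyperspace
-/

open Filter Topology Set

namespace Pool.Agent.Lib.MP_f85c9e_gt

variable {X : Type*} [TopologicalSpace X]

/-- If a sequence is eventually in every neighbourhood of a finite set, then some subsequence
converges to a point of this finite set. -/
theorem exists_subseq_tendsto_of_tendsto_nhdsSet (A : Finset X) :
    ∀ x : ℕ → X, Tendsto x atTop (𝓝ˢ (A : Set X)) →
      ∃ φ : ℕ → ℕ, StrictMono φ ∧ ∃ a ∈ A, Tendsto (fun k => x (φ k)) atTop (𝓝 a) := by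
  classical
  induction A using Finset.induction_on with
  | empty =>
    intro x hx
    exfalso
    have h : Tendsto x atTop (⊥ : Filter X) := by simpa using hx
    have := h.neBot
    exact this.ne rfl
  | insert a A _ ih =>
    intro x hx
    by_cases ha : Tendsto x atTop (𝓝 a)
    · exact ⟨id, strictMono_id, a, Finset.mem_insert_self a A, ha⟩
    · -- some neighbourhood `O` of `a` is missed infinitely often
      rw [tendsto_def] at ha
      push Not at ha
      obtain ⟨O, hO, hfreq⟩ := ha
      have hf : ∃ᶠ n in atTop, x n ∉ O := by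
        intro hcon
        apply hfreq
        filter_upwards [hcon] with n hn
        exact not_not.1 hn
      obtain ⟨ψ, hψ, hψO⟩ := extraction_of_frequently_atTop hf
      have hx' : Tendsto (fun k => x (ψ k)) atTop (𝓝ˢ (A : Set X)) := by
        rw [tendsto_def]
        intro W hW
        have hWO : W ∪ O ∈ 𝓝ˢ ((insert a A : Finset X) : Set X) := by
          rw [Finset.coe_insert, nhdsSet_insert, mem_sup]
          exact ⟨mem_of_superset hO subset_union_right, mem_of_superset hW subset_union_left⟩
        have h1 := (hx.comp hψ.tendsto_atTop) hWO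
        filter_upwards [h1] with k hk
        rcases hk with hk | hk
        · exact hk
        · exact absurd hk (hψO k)
      obtain ⟨φ, hφ, b, hb, hlim⟩ := ih (fun k => x (ψ k)) hx'
      exact ⟨ψ ∘ φ, hψ.comp hφ, b, Finset.mem_insert_of_mem hb, hlim⟩

/-- In an SHD space no nonempty finite set has a countable neighbourhood base. -/
theorem IsSHD.not_isCountablyGenerated (hX : IsSHD X) (A : Finset X) (hA : A.Nonempty) :
    ¬ (𝓝ˢ (A : Set X)).IsCountablyGenerated := by
  intro h
  obtain ⟨V, hV⟩ := (𝓝ˢ (A : Set X)).exists_antitone_basis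
  have hVA : ∀ n, (A : Set X) ⊆ interior (V n) := fun n =>
    subset_interior_iff_mem_nhdsSet.2 (hV.1.mem_of_mem trivial)
  obtain ⟨x, hx, hφ⟩ := hX (fun n => interior (V n)) (fun n => isOpen_interior)
    (fun n => by obtain ⟨a, ha⟩ := hA; exact ⟨a, hVA n ha⟩)
  have hxA : Tendsto x atTop (𝓝ˢ (A : Set X)) :=
    hV.tendsto fun n => interior_subset (hx n)
  obtain ⟨φ, hφm, a, -, ha⟩ := exists_subseq_tendsto_of_tendsto_nhdsSet A x hxA
  exact hφ φ hφm a ha

/-- If `X` is SHD, so is its Pixley-Roy hyperspace. -/
theorem IsSHD.pixleyRoy (hX : IsSHD X) : IsSHD (PixleyRoy X) :=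
  isSHD_of_not_isCountablyGenerated fun A hA => hX.not_isCountablyGenerated A hA

end Pool.Agent.Lib.MP_f85c9e_gt
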