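import Mathlib

/-!
# Selectively highly divergent spaces and the Pixley-Roy hyperspace: definitions
-/

open Filter Topology Set

namespace Pool.Agent.Lib.MP_f85c9e_gt

/-- A topological space `X` is *selectively highly divergent* (SHD) if for every sequence
`(U n)` of nonempty open subsets one can choose points `x n ∈ U n` such that no subsequence
of `x` converges (to any point of `X`). -/
def IsSHD (X : Type*) [TopologicalSpace X] : Prop :=
  ∀ U : ℕ → Set X, (∀ n, IsOpen (U n)) → (∀ n, (U n).Nonempty) →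
    ∃ x : ℕ → X, (∀ n, x n ∈ U n) ∧
      ∀ φ : ℕ → ℕ, StrictMono φ → ∀ a : X, ¬ Tendsto (fun k => x (φ k)) atTop (𝓝 a)

/-- The underlying set of the Pixley-Roy hyperspace of `X`: the nonempty finite subsets of `X`. -/
structure PixleyRoy (X : Type*) where
  /-- the finite set -/
  carrier : Finset X
  /-- it is nonempty -/
  nonempty : carrier.Nonempty

/-- The basic set `[F, V] = {H : F ⊆ H ⊆ V}` of the Pixley-Roy hyperspace. -/
def PixleyRoy.basic {X : Type*} (F : PixleyRoy X) (V : Set X) : Set (PixleyRoy X) :=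
  {H | F.carrier ⊆ H.carrier ∧ (H.carrier : Set X) ⊆ V}

/-- The Pixley-Roy topology: a set `𝒰` is open iff with each of its points `F` it contains
`[F, V]` for some open `V ⊇ F`. -/
instance PixleyRoy.instTopologicalSpace (X : Type*) [TopologicalSpace X] :
    TopologicalSpace (PixleyRoy X) where
  IsOpen 𝒰 := ∀ F ∈ 𝒰, ∃ V : Set X, IsOpen V ∧ (F.carrier : Set X) ⊆ V ∧ PixleyRoy.basic F V ⊆ 𝒰
  isOpen_univ := fun F _ => ⟨univ, isOpen_univ, subset_univ _, subset_univ _⟩
  isOpen_inter := by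
    intro s t hs ht F hF
    obtain ⟨V, hV, hFV, hVs⟩ := hs F hF.1
    obtain ⟨W, hW, hFW, hWt⟩ := ht F hF.2
    refine ⟨V ∩ W, hV.inter hW, subset_inter hFV hFW, ?_⟩
    intro H hH
    exact ⟨hVs ⟨hH.1, hH.2.trans inter_subset_left⟩, hWt ⟨hH.1, hH.2.trans inter_subset_right⟩⟩
  isOpen_sUnion := by
    intro S hS F hF
    obtain ⟨s, hsS, hFs⟩ := hF
    obtain ⟨V, hV, hFV, hVs⟩ := hS s hsS F hFs
    exact ⟨V, hV, hFV, hVs.trans (subset_sUnion_of_mem hsS)⟩

end Pool.Agent.Lib.MP_f85c9e_gt
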