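import Pool.Agent.Lib.MP_f85c9e_gt.Basic

/-!
# A compact linearly ordered space in which no nonempty finite set has a countable
neighbourhood base

The space is the set of functions `ω₁ → {0,1}` with the lexicographic order and the order topology.
-/

open Filter Topology Set

namespace Pool.Agent.Lib.MP_f85c9e_gt

/-- The index set: the well-ordered set `ω₁` of all countable ordinals. -/
abbrev Idx : Type := (Cardinal.aleph 1).ord.ToType

/-- The lexicographically ordered set `{0,1}^{ω₁}`. -/
abbrev LexCube : Type := Lex (Idx → Bool)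

/-- The order topology on `LexCube`. -/
noncomputable instance : TopologicalSpace LexCube := Preorder.topology LexCube

instance : OrderTopology LexCube := ⟨rfl⟩

theorem exists_forall_lt_of_countable (s : Set Idx) (hs : s.Countable) :
    ∃ b : Idx, ∀ a ∈ s, a < b := by
  have hIio : ∀ a : Idx, (Iio a).Countable := by
    intro a
    have h : Cardinal.mk (Iio a) < Cardinal.mk Idx :=
      Cardinal.mk_Iio_lt a (by simp)
    have h2 : Cardinal.mk Idx = Order.succ Cardinal.aleph0 := by
      rw [Cardinal.mk_ord_toType, Cardinal.succ_aleph0]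
    rw [h2] at h
    rw [← Cardinal.le_aleph0_iff_set_countable]
    exact Order.lt_succ_iff.1 h
  have hIic : ∀ a : Idx, (Iic a).Countable := by
    intro a
    rw [← Iio_union_right]
    exact (hIio a).union (countable_singleton a)
  have hU : (⋃ a ∈ s, Iic a).Countable := hs.biUnion fun a _ => hIic a
  have huniv : ¬ (univ : Set Idx).Countable := by
    intro h
    rw [← Cardinal.le_aleph0_iff_set_countable, Cardinal.mk_univ, Cardinal.mk_ord_toType] at h
    exact absurd h (not_le.2 Cardinal.aleph0_lt_aleph_one)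
  obtain ⟨b, hb⟩ : ∃ b, b ∉ ⋃ a ∈ s, Iic a := by
    by_contra hcon
    push Not at hcon
    exact huniv (hU.mono fun b _ => hcon b)
  refine ⟨b, fun a ha => ?_⟩
  by_contra hab
  exact hb (mem_biUnion ha (not_lt.1 hab))

theorem lexCube_exists_between_left (x : LexCube) (hx : ∀ b : Idx, ∃ i, b < i ∧ x i = true)
    (Y : Set LexCube) (hY : Y.Countable) (hYx : ∀ y ∈ Y, y < x) :
    ∃ z < x, ∀ y ∈ Y, y < z := by
  classical
  have h1 : ∀ y : LexCube, ∃ i : Idx, y ∈ Y → (∀ j < i, y j = x j) ∧ y i < x i := by
    intro y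
    by_cases hy : y ∈ Y
    · obtain ⟨i, hi⟩ := hYx y hy
      exact ⟨i, fun _ => hi⟩
    · obtain ⟨i, -⟩ := hx (Classical.choice (by
        rw [← Cardinal.mk_ne_zero_iff, Cardinal.mk_ord_toType]
        exact (Cardinal.aleph_pos 1).ne'))
      exact ⟨i, fun h => absurd h hy⟩
  choose f hf using h1
  obtain ⟨b, hb⟩ := exists_forall_lt_of_countable (f '' Y) (hY.image f)
  obtain ⟨i, hbi, hi⟩ := hx b
  refine ⟨toLex (Function.update (ofLex x) i false), ?_, ?_⟩
  · have : toLex (Function.update (ofLex x) i false) < toLex (ofLex x) := by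
      rw [Pi.toLex_update_lt_self_iff]
      change false < x i
      rw [hi]; decide
    exact this
  · intro y hy
    have hlt : f y < i := (hb _ (mem_image_of_mem f hy)).trans hbi
    refine ⟨f y, fun j hj => ?_, ?_⟩
    · have : toLex (Function.update (ofLex x) i false) j = x j := by
        change Function.update (ofLex x) i false j = x j
        rw [Function.update_of_ne (hj.trans hlt).ne]; rfl
      rw [this]
      exact (hf y hy).1 j hj
    · have : toLex (Function.update (ofLex x) i false) (f y) = x (f y) := by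
        change Function.update (ofLex x) i false (f y) = x (f y)
        rw [Function.update_of_ne hlt.ne]; rfl
      rw [this]
      exact (hf y hy).2

theorem lexCube_exists_between_right (x : LexCube) (hx : ∀ b : Idx, ∃ i, b < i ∧ x i = false)
    (Y : Set LexCube) (hY : Y.Countable) (hYx : ∀ y ∈ Y, x < y) :
    ∃ z, x < z ∧ ∀ y ∈ Y, z < y := by
  classical
  have h1 : ∀ y : LexCube, ∃ i : Idx, y ∈ Y → (∀ j < i, x j = y j) ∧ x i < y i := by
    intro y
    by_cases hy : y ∈ Y
    · obtain ⟨i, hi⟩ := hYx y hy
      exact ⟨i, fun _ => hi⟩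
    · obtain ⟨i, -⟩ := hx (Classical.choice (by
        rw [← Cardinal.mk_ne_zero_iff, Cardinal.mk_ord_toType]
        exact (Cardinal.aleph_pos 1).ne'))
      exact ⟨i, fun h => absurd h hy⟩
  choose f hf using h1
  obtain ⟨b, hb⟩ := exists_forall_lt_of_countable (f '' Y) (hY.image f)
  obtain ⟨i, hbi, hi⟩ := hx b
  refine ⟨toLex (Function.update (ofLex x) i true), ?_, ?_⟩
  · have : toLex (ofLex x) < toLex (Function.update (ofLex x) i true) := by
      rw [Pi.lt_toLex_update_self_iff]
      change x i < true
      rw [hi]; decide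
    exact this
  · intro y hy
    have hlt : f y < i := (hb _ (mem_image_of_mem f hy)).trans hbi
    refine ⟨f y, fun j hj => ?_, ?_⟩
    · have : toLex (Function.update (ofLex x) i true) j = x j := by
        change Function.update (ofLex x) i true j = x j
        rw [Function.update_of_ne (hj.trans hlt).ne]; rfl
      rw [this]
      exact (hf y hy).1 j hj
    · have : toLex (Function.update (ofLex x) i true) (f y) = x (f y) := by
        change Function.update (ofLex x) i true (f y) = x (f y)
        rw [Function.update_of_ne hlt.ne]; rfl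
      rw [this]
      exact (hf y hy).2

/-- Every countable family of neighbourhoods of a finite set `A` of points of `LexCube` has a
common point outside `A`. -/
theorem lexCube_exists_mem_inter (A : Finset LexCube) (hA : A.Nonempty) (V : ℕ → Set LexCube)
    (hV : ∀ n, V n ∈ 𝓝ˢ (A : Set LexCube)) : ∃ z, z ∉ A ∧ ∀ n, z ∈ V n := by
  classical
  obtain ⟨x, hxA⟩ := hA
  have hVx : ∀ n, V n ∈ 𝓝 x := fun n => nhds_le_nhdsSet (by exact_mod_cast hxA) (hV n)
  by_cases hx : ∀ b : Idx, ∃ i, b < i ∧ x i = true
  · -- approach `x` from the left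
    have hl : ∃ l, l < x := by
      obtain ⟨z, hz, -⟩ := lexCube_exists_between_left x hx ∅ countable_empty (by simp)
      exact ⟨z, hz⟩
    have h1 : ∀ n, ∃ l < x, Ioc l x ⊆ V n := fun n => exists_Ioc_subset_of_mem_nhds (hVx n) hl
    choose l hlx hlV using h1
    obtain ⟨z, hzx, hz⟩ := lexCube_exists_between_left x hx
      (range l ∪ {a | a ∈ A ∧ a < x})
      ((countable_range l).union ((Finset.countable_toSet A).mono fun a ha => ha.1))
      (by
        rintro y (⟨n, rfl⟩ | hy)
        · exact hlx n
        · exact hy.2)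
    refine ⟨z, fun hzA => ?_, fun n => hlV n ⟨hz _ (Or.inl ⟨n, rfl⟩), hzx.le⟩⟩
    exact lt_irrefl z (hz z (Or.inr ⟨hzA, hzx⟩))
  · push Not at hx
    obtain ⟨b, hb⟩ := hx
    have hx' : ∀ c : Idx, ∃ i, c < i ∧ x i = false := by
      intro c
      obtain ⟨i, hi⟩ := exists_forall_lt_of_countable {b, c} (by simp)
      refine ⟨i, hi c (by simp), ?_⟩
      have := hb i (hi b (by simp))
      simpa using this
    have hl : ∃ u, x < u := by
      obtain ⟨z, hz, -⟩ := lexCube_exists_between_right x hx' ∅ countable_empty (by simp)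
      exact ⟨z, hz⟩
    have h1 : ∀ n, ∃ u, x < u ∧ Ico x u ⊆ V n := fun n => exists_Ico_subset_of_mem_nhds (hVx n) hl
    choose u hxu huV using h1
    obtain ⟨z, hxz, hz⟩ := lexCube_exists_between_right x hx'
      (range u ∪ {a | a ∈ A ∧ x < a})
      ((countable_range u).union ((Finset.countable_toSet A).mono fun a ha => ha.1))
      (by
        rintro y (⟨n, rfl⟩ | hy)
        · exact hxu n
        · exact hy.2)
    refine ⟨z, fun hzA => ?_, fun n => huV n ⟨hxz.le, hz _ (Or.inl ⟨n, rfl⟩)⟩⟩
    exact lt_irrefl z (hz z (Or.inr ⟨hzA, hxz⟩))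

theorem lexCube_not_isCountablyGenerated (A : Finset LexCube) (hA : A.Nonempty) :
    ¬ (𝓝ˢ (A : Set LexCube)).IsCountablyGenerated := by
  intro h
  obtain ⟨V, hV⟩ := (𝓝ˢ (A : Set LexCube)).exists_antitone_basis
  obtain ⟨z, hzA, hz⟩ := lexCube_exists_mem_inter A hA V fun n => hV.1.mem_of_mem trivial
  have hW : ({z}ᶜ : Set LexCube) ∈ 𝓝ˢ (A : Set LexCube) := by
    apply isOpen_compl_singleton.mem_nhdsSet.2
    intro a ha haz
    rw [mem_singleton_iff] at haz
    exact hzA (haz ▸ ha)
  obtain ⟨n, -, hn⟩ := hV.1.mem_iff.1 hW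
  exact hn (hz n) rfl

theorem isSHD_pixleyRoy_lexCube : IsSHD (PixleyRoy LexCube) :=
  isSHD_of_not_isCountablyGenerated lexCube_not_isCountablyGenerated

/-- In a compact linearly ordered space every sequence has a convergent subsequence. -/
theorem exists_tendsto_subseq {α : Type*} [CompleteLinearOrder α] [TopologicalSpace α]
    [OrderTopology α] (x : ℕ → α) :
    ∃ φ : ℕ → ℕ, StrictMono φ ∧ ∃ a : α, Tendsto (fun k => x (φ k)) atTop (𝓝 a) := by
  obtain ⟨g, hg⟩ := exists_increasing_or_nonincreasing_subseq (fun a b : α => a ≤ b) x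
  rcases hg with hg | hg
  · have hm : Monotone fun k => x (g k) := by
      intro m n hmn
      rcases hmn.eq_or_lt with rfl | h
      · exact le_rfl
      · exact hg m n h
    exact ⟨g, g.strictMono, _, tendsto_atTop_iSup hm⟩
  · have hm : Antitone fun k => x (g k) := by
      intro m n hmn
      rcases hmn.eq_or_lt with rfl | h
      · exact le_rfl
      · exact (not_le.1 (hg m n h)).le
    exact ⟨g, g.strictMono, _, tendsto_atTop_iInf hm⟩

theorem not_isSHD_lexCube : ¬ IsSHD LexCube := by
  intro h
  obtain ⟨x, -, hx⟩ := h (fun _ => univ) (fun _ => isOpen_univ) (fun _ => univ_nonempty)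
  obtain ⟨φ, hφ, a, ha⟩ := exists_tendsto_subseq x
  exact hx φ hφ a ha

end Pool.Agent.Lib.MP_f85c9e_gt
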